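import Pool.Agent.Y819.ZF.Stm

/-!
# The Pfaffian coefficient of regular multigraphs with two or four vertices
-/

set_option autoImplicit false

namespace Pool.Agent.Y812.ZF

open MvPolynomial Finset Pool.Agent.Helper929 Pool.Agent.H604R2.LEC
open Pool.Agent.Y819.ZF

section

variable {R : Type} [CommRing R]

lemma pf_two (A : Matrix (Fin 2) (Fin 2) R) : pf 2 A = A 0 1 := by
  simp [pf]

lemma pf_four (A : Matrix (Fin 4) (Fin 4) R) :
    pf 4 A = A 0 1 * A 2 3 - A 0 2 * A 1 3 + A 0 3 * A 1 2 := by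
  simp [pf, Fin.sum_univ_succ]
  ring_nf

end

abbrev e01 : Ed 4 := ⟨(0, 1), by decide⟩
abbrev e02 : Ed 4 := ⟨(0, 2), by decide⟩
abbrev e03 : Ed 4 := ⟨(0, 3), by decide⟩
abbrev e12 : Ed 4 := ⟨(1, 2), by decide⟩
abbrev e13 : Ed 4 := ⟨(1, 3), by decide⟩
abbrev e23 : Ed 4 := ⟨(2, 3), by decide⟩

lemma ed4 : (univ : Finset (Ed 4)) = {e01, e02, e03, e12, e13, e23} := by decide

lemma sum4 (F : Ed 4 → ℕ) :
    ∑ e, F e = F e01 + F e02 + F e03 + F e12 + F e13 + F e23 := by
  rw [ed4]
  rw [Finset.sum_insert (by decide), Finset.sum_insert (by decide), Finset.sum_insert (by decide),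
    Finset.sum_insert (by decide), Finset.sum_insert (by decide), Finset.sum_singleton]
  ring

lemma cases4 (e : Ed 4) : e = e01 ∨ e = e02 ∨ e = e03 ∨ e = e12 ∨ e = e13 ∨ e = e23 := by
  have h : e ∈ (univ : Finset (Ed 4)) := Finset.mem_univ e
  rw [ed4] at h
  simpa using h

/-- the powers of the sum of three monomials -/
lemma coeff_pow (R : Type) [CommRing R] (K : Type) [Fintype K] (N : ℕ) (s : Fin 3 → R)
    (d : Fin 3 → K →₀ ℕ) (m : K →₀ ℕ) (k0 : Fin 3 → ℕ) (hk0 : ∑ i, k0 i = N)
    (hm : ∑ i, k0 i • d i = m) (hu : ∀ k : Fin 3 → ℕ, ∑ i, k i • d i = m → k = k0) :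
    coeff m ((∑ i, monomial (d i) (s i) : MvPolynomial K R) ^ N) =
      (Nat.multinomial univ k0 : R) * ∏ i, s i ^ k0 i := by
  classical
  rw [Finset.sum_pow_eq_sum_piAntidiag, coeff_sum]
  have h1 : ∀ k : Fin 3 → ℕ, coeff m (((Nat.multinomial univ k : ℕ) : MvPolynomial K R) *
      ∏ i, (monomial (d i) (s i) : MvPolynomial K R) ^ k i) =
        if k = k0 then (Nat.multinomial univ k0 : R) * ∏ i, s i ^ k0 i else 0 := by
    intro k
    have h2 : ∏ i, (monomial (d i) (s i) : MvPolynomial K R) ^ k i =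
        monomial (∑ i, k i • d i) (∏ i, s i ^ k i) := by
      rw [Fin.prod_univ_three, Fin.prod_univ_three, Fin.sum_univ_three, monomial_pow, monomial_pow,
        monomial_pow, monomial_mul, monomial_mul]
    rw [h2, ← C_eq_coe_nat, coeff_C_mul, coeff_monomial]
    split_ifs with h3 h4 h4
    · rw [h4]
    · exact absurd (hu k h3) h4
    · exact absurd (h4 ▸ hm) h3
    · rw [mul_zero]
  rw [Finset.sum_congr rfl fun k _ => h1 k, Finset.sum_ite_eq', if_pos]
  rw [Finset.mem_piAntidiag]
  exact ⟨hk0, fun i _ => Finset.mem_univ i⟩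

lemma fac_ne {p : ℕ} [Fact p.Prime] {k : ℕ} (hk : k < p) : ((k.factorial : ℕ) : ZMod p) ≠ 0 := by
  intro h
  rw [ZMod.natCast_eq_zero_iff] at h
  have := (Nat.Prime.dvd_factorial (Fact.out : p.Prime)).1 h
  omega

lemma multi_ne {p : ℕ} [Fact p.Prime] {k0 : Fin 3 → ℕ} {N : ℕ} (hN : ∑ i, k0 i = N) (hp : N < p) :
    ((Nat.multinomial univ k0 : ℕ) : ZMod p) ≠ 0 := by
  intro h
  have h1 := Nat.multinomial_spec univ k0
  rw [hN] at h1
  apply fac_ne (p := p) hp
  rw [← h1]
  push_cast
  rw [h, mul_zero]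

lemma SM_eq {p f : ℕ} (m : Ed f → ℕ) [∀ k : Ed f, DecidablePred fun x : ME m => x.1 = k] :
    SM (ZMod p) (mτ m) (mη m) =
      skew (fun e => ∑ x ∈ univ.filter (fun x : ME m => x.1 = e), (X x : MvPolynomial (ME m) (ZMod p))) := by
  classical
  ext1 i j
  have hlt : ∀ x : ME m, x.1.1.1 < x.1.1.2 := fun x => x.1.2
  simp only [SM, skew, Matrix.of_apply]
  have hz : ∀ i j : Fin f, ¬ i < j → ∀ x : ME m, ¬ (mτ m x = i ∧ mη m x = j) := by
    rintro i j hij x ⟨h1, h2⟩
    have := hlt x
    unfold mτ at h1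
    unfold mη at h2
    rw [h1, h2] at this
    exact hij this
  have hy : ∀ (i j : Fin f) (h : i < j) (x : ME m), (mτ m x = i ∧ mη m x = j) ↔ x.1 = ⟨(i, j), h⟩ := by
    intro i j h x
    unfold mτ mη
    constructor
    · rintro ⟨h1, h2⟩
      exact Subtype.ext (Prod.ext h1 h2)
    · intro h1
      rw [h1]
      exact ⟨rfl, rfl⟩
  split_ifs with h1 h2
  · rw [Finset.sum_filter]
    refine Finset.sum_congr rfl fun x _ => ?_
    rw [if_neg (hz j i (not_lt.2 h1.le) x), sub_zero]
    by_cases h3 : x.1 = ⟨(i, j), h1⟩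
    · rw [if_pos h3, if_pos ((hy i j h1 x).2 h3)]
    · rw [if_neg h3, if_neg fun h => h3 ((hy i j h1 x).1 h)]
  · rw [Finset.sum_filter, ← Finset.sum_neg_distrib]
    refine Finset.sum_congr rfl fun x _ => ?_
    rw [if_neg (hz i j h1 x), zero_sub]
    by_cases h3 : x.1 = ⟨(j, i), h2⟩
    · rw [if_pos h3, if_pos ((hy j i h2 x).2 h3)]
    · rw [if_neg h3, if_neg fun h => h3 ((hy j i h2 x).1 h)]
  · refine Finset.sum_eq_zero fun x _ => ?_
    rw [if_neg (hz i j h1 x), if_neg (hz j i h2 x), sub_zero]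

lemma skew_lt {R : Type} [CommRing R] {n : ℕ} (x : Ed n → R) (i j : Fin n) (h : i < j) :
    skew x i j = x ⟨(i, j), h⟩ := by
  unfold skew
  rw [Matrix.of_apply, dif_pos h]

theorem main (hS : S_SUB) : S_SMALL := by
  classical
  intro p _ hp2 f hf m hdeg
  have hp := (Fact.out : p.Prime)
  have hp3 : 3 ≤ p := by
    have := hp.two_le
    omega
  have hcard : ∀ k : Ed f, (univ.filter (fun x : ME m => x.1 = k)).card = m k := by
    intro k
    have h : univ.filter (fun x : ME m => x.1 = k) =
        ({k} : Finset (Ed f)).sigma (fun e => (univ : Finset (Fin (m e)))) := by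
      ext x
      simp
    rw [h, Finset.card_sigma, Finset.sum_singleton, Finset.card_univ, Fintype.card_fin]
  have hsub := hS (ZMod p) (Ed f) (ME m) (fun x => x.1)
    (pf f (skew (fun e => (X e : MvPolynomial (Ed f) (ZMod p)))) ^ (p - 2))
  have hΦ : aeval (fun k : Ed f => ∑ e ∈ univ.filter (fun e : ME m => e.1 = k),
      (X e : MvPolynomial (ME m) (ZMod p))) (pf f (skew (fun e => (X e : MvPolynomial (Ed f) (ZMod p)))))
      = pf f (skew (fun k : Ed f => ∑ e ∈ univ.filter (fun e : ME m => e.1 = k),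
      (X e : MvPolynomial (ME m) (ZMod p)))) := by
    have := pf_skew_map (fun e => (X e : MvPolynomial (Ed f) (ZMod p)))
      (aeval (R := ZMod p) (fun k : Ed f => ∑ e ∈ univ.filter (fun e : ME m => e.1 = k),
      (X e : MvPolynomial (ME m) (ZMod p)))).toRingHom
    simpa using this
  have hcc : cc (ZMod p) (p - 2) (mτ m) (mη m) = (((∏ k : Ed f, (m k).factorial) : ℕ) : ZMod p) *
      coeff (Finsupp.equivFunOnFinite.symm m)
        (pf f (skew (fun e => (X e : MvPolynomial (Ed f) (ZMod p)))) ^ (p - 2)) := by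
    unfold cc
    rw [SM_eq, ← hΦ, ← map_pow]
    have hcard' : ∀ k : Ed f, (@Finset.filter (ME m) (fun x => x.1 = k)
        (fun _ => Classical.propDecidable _) univ).card = m k := by
      intro k
      rw [← hcard k]
      congr
    simp only [hcard'] at hsub
    rw [← hsub]
    congr!
  rw [hcc]
  refine mul_ne_zero ?_ ?_
  · rw [Nat.cast_prod, Finset.prod_ne_zero_iff]
    intro k _
    apply fac_ne
    have h1 := hdeg k.1.1
    have h2 : m k ≤ ∑ e ∈ univ.filter (fun e : Ed f => e.1.1 = k.1.1 ∨ e.1.2 = k.1.1), m e :=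
      Finset.single_le_sum (f := m) (fun _ _ => Nat.zero_le _)
        (Finset.mem_filter.2 ⟨Finset.mem_univ k, Or.inl rfl⟩)
    omega
  · rcases hf with rfl | rfl
    · rw [pf_two, skew_lt _ 0 1 (by decide), X_pow_eq_monomial, coeff_monomial, if_pos]
      · exact one_ne_zero
      · have huniv : (univ : Finset (Ed 2)) = {⟨(0, 1), by decide⟩} := by decide
        have h1 := hdeg 0
        rw [Finset.sum_filter, huniv, Finset.sum_singleton, if_pos (Or.inl rfl)] at h1
        ext e
        have he : e ∈ (univ : Finset (Ed 2)) := Finset.mem_univ e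
        rw [huniv, Finset.mem_singleton] at he
        rw [he, Finsupp.single_eq_same]
        exact h1.symm
    · have d0 := hdeg 0
      have d1 := hdeg 1
      have d2 := hdeg 2
      have d3 := hdeg 3
      rw [Finset.sum_filter, sum4] at d0 d1 d2 d3
      simp at d0 d1 d2 d3
      have hg : pf 4 (skew (fun e => (X e : MvPolynomial (Ed 4) (ZMod p)))) =
          ∑ i, monomial ((![Finsupp.single e01 1 + Finsupp.single e23 1,
            Finsupp.single e02 1 + Finsupp.single e13 1,
            Finsupp.single e03 1 + Finsupp.single e12 1] : Fin 3 → Ed 4 →₀ ℕ) i)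
            ((![1, -1, 1] : Fin 3 → ZMod p) i) := by
        rw [pf_four, skew_lt _ 0 1 (by decide), skew_lt _ 2 3 (by decide), skew_lt _ 0 2 (by decide),
          skew_lt _ 1 3 (by decide), skew_lt _ 0 3 (by decide), skew_lt _ 1 2 (by decide),
          Fin.sum_univ_three]
        simp [X, monomial_mul, map_neg]
        ring
      have hev : ∀ (k : Fin 3 → ℕ) (e : Ed 4), (∑ i, k i • (![Finsupp.single e01 1 +
            Finsupp.single e23 1, Finsupp.single e02 1 + Finsupp.single e13 1,
            Finsupp.single e03 1 + Finsupp.single e12 1] : Fin 3 → Ed 4 →₀ ℕ) i) e =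
          k 0 * ((if e01 = e then 1 else 0) + (if e23 = e then 1 else 0)) +
          k 1 * ((if e02 = e then 1 else 0) + (if e13 = e then 1 else 0)) +
          k 2 * ((if e03 = e then 1 else 0) + (if e12 = e then 1 else 0)) := by
        intro k e
        rw [Fin.sum_univ_three]
        simp [Finsupp.single_apply, mul_add]
      rw [hg, coeff_pow (ZMod p) (Ed 4) (p - 2) _ _ _ ![m e01, m e02, m e03]]
      · refine mul_ne_zero (multi_ne (N := p - 2) ?_ (by omega)) ?_
        · rw [Fin.sum_univ_three]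
          exact d0
        · rw [Fin.prod_univ_three]
          simp
      · rw [Fin.sum_univ_three]
        exact d0
      · ext e
        rw [hev]
        rcases cases4 e with rfl | rfl | rfl | rfl | rfl | rfl
        · simp
        · simp
        · simp
        · simp; omega
        · simp; omega
        · simp; omega
      · intro k hk
        have h0 := DFunLike.congr_fun hk e01
        have h1 := DFunLike.congr_fun hk e02
        have h2 := DFunLike.congr_fun hk e03
        rw [hev] at h0 h1 h2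
        simp at h0 h1 h2
        funext i
        fin_cases i
        · exact h0
        · exact h1
        · exact h2

end Pool.Agent.Y812.ZF
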