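import Pool.Agent.Y819.ZF.Stm2
import Pool.Agent.Y819.ZF.Rel

/-!
# Disjoint unions of multigraphs
-/

set_option autoImplicit false

namespace Pool.Agent.Y812.ZF.Uni

open MvPolynomial Finset Pool.Agent.Helper929 Pool.Agent.H604R2.LEC
open Pool.Agent.Y819.ZF Pool.Agent.Y819.ZF.Rel

/-- the degrees after numbering -/
lemma deg_nm {V : Type} {d n : ℕ} {μ : V → V → ℕ} (h : RegM d μ) (e : V ≃ Fin n) :
    Reg d (mτ (nm μ e)) (mη (nm μ e)) := by
  classical
  have hfin := h.fin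
  have : Fintype V := Fintype.ofFinite V
  refine reg_ME (nm μ e) fun c => ?_
  have h1 : ∑ w, μ (e.symm c) w = d := by
    rw [← h.reg (e.symm c), finsum_eq_sum_of_fintype]
  have h2 : ∑ w : Fin n, μ (e.symm c) (e.symm w) = d := by
    rw [← h1]
    exact Equiv.sum_comp e.symm (fun w => μ (e.symm c) w)
  have h3 : ∑ w ∈ univ.erase c, μ (e.symm c) (e.symm w) = d := by
    rw [← h2, ← Finset.add_sum_erase univ _ (Finset.mem_univ c), h.diag, zero_add]
  rw [← h3]
  symm
  refine Finset.sum_bij (fun w hw => if hlt : w < c then (⟨(w, c), hlt⟩ : Ed n) else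
    ⟨(c, w), lt_of_le_of_ne (not_lt.1 hlt) (Finset.ne_of_mem_erase hw).symm⟩) ?_ ?_ ?_ ?_
  · intro w hw
    split_ifs with hlt
    · exact Finset.mem_filter.2 ⟨Finset.mem_univ _, Or.inr rfl⟩
    · exact Finset.mem_filter.2 ⟨Finset.mem_univ _, Or.inl rfl⟩
  · intro w hw w' hw' heq
    split_ifs at heq with h4 h5 h5
    · exact congrArg (fun x : Ed n => x.1.1) heq
    · have := congrArg (fun x : Ed n => x.1.1) heq
      exact absurd this (Finset.ne_of_mem_erase hw)
    · have := congrArg (fun x : Ed n => x.1.1) heq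
      exact absurd this.symm (Finset.ne_of_mem_erase hw')
    · exact congrArg (fun x : Ed n => x.1.2) heq
  · rintro ⟨⟨a, b⟩, hab⟩ he
    have hab' : a < b := hab
    rcases (Finset.mem_filter.1 he).2 with h4 | h4
    · have h5 : a = c := h4
      subst h5
      refine ⟨b, Finset.mem_erase.2 ⟨hab'.ne', Finset.mem_univ _⟩, ?_⟩
      rw [dif_neg (not_lt.2 hab'.le)]
    · have h5 : b = c := h4
      subst h5
      refine ⟨a, Finset.mem_erase.2 ⟨hab'.ne, Finset.mem_univ _⟩, ?_⟩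
      rw [dif_pos hab']
  · intro w hw
    split_ifs with hlt
    · exact h.symm _ _
    · rfl

/-- the pairs of the union -/
def io (z f : ℕ) : Ed z ⊕ Ed f → Ed (z + f)
  | Sum.inl e => ⟨(Fin.castAdd f e.1.1, Fin.castAdd f e.1.2), e.2⟩
  | Sum.inr e => ⟨(Fin.natAdd z e.1.1, Fin.natAdd z e.1.2), by
      have h := e.2
      rw [Fin.lt_def] at h ⊢
      simpa using h⟩

lemma io_inj (z f : ℕ) : Function.Injective (io z f) := by
  rintro (⟨⟨a, b⟩, h⟩ | ⟨⟨a, b⟩, h⟩) (⟨⟨a', b'⟩, h'⟩ | ⟨⟨a', b'⟩, h'⟩) heq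
  · have h1 := congrArg (fun x : Ed (z + f) => (x.1.1 : ℕ)) heq
    have h2 := congrArg (fun x : Ed (z + f) => (x.1.2 : ℕ)) heq
    have h3 : a = a' := Fin.ext h1
    have h4 : b = b' := Fin.ext h2
    subst h3 h4
    rfl
  · have h1 := congrArg (fun x : Ed (z + f) => (x.1.1 : ℕ)) heq
    have h2 : (a : ℕ) = z + a' := h1
    omega
  · have h1 := congrArg (fun x : Ed (z + f) => (x.1.1 : ℕ)) heq
    have h2 : z + (a : ℕ) = a' := h1
    omega
  · have h1 := congrArg (fun x : Ed (z + f) => (x.1.1 : ℕ)) heq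
    have h2 := congrArg (fun x : Ed (z + f) => (x.1.2 : ℕ)) heq
    have h1' : z + (a : ℕ) = z + a' := h1
    have h2' : z + (b : ℕ) = z + b' := h2
    have h3 : a = a' := Fin.ext (by omega)
    have h4 : b = b' := Fin.ext (by omega)
    subst h3 h4
    rfl

lemma sig_bij {A B : Type} (ι : A → B) (hι : Function.Injective ι) (m : B → ℕ)
    (hm : ∀ b, b ∉ Set.range ι → m b = 0) :
    Function.Bijective (fun x : (a : A) × Fin (m (ι a)) => (⟨ι x.1, x.2⟩ : (b : B) × Fin (m b))) := by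
  constructor
  · rintro ⟨a, k⟩ ⟨a', k'⟩ h
    have h1 : ι a = ι a' := congrArg Sigma.fst h
    have h2 := hι h1
    subst h2
    simpa using h
  · rintro ⟨b, k⟩
    by_cases hb : b ∈ Set.range ι
    · obtain ⟨a, rfl⟩ := hb
      exact ⟨⟨a, k⟩, rfl⟩
    · have h1 := k.2
      have h2 := hm b hb
      omega

theorem main (h1 : S_NUM) (h2 : S_PF) (h3 : S_BLK) (hI : S_ISO) : S_UNI := by
  classical
  intro p _ hp2 V W μ ν rμ rν okμ okν n e'
  have hp := (Fact.out : p.Prime)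
  have hfV := rμ.fin
  have hfW := rν.fin
  have : Fintype V := Fintype.ofFinite V
  have : Fintype W := Fintype.ofFinite W
  obtain ⟨z, ⟨e1⟩⟩ := Finite.exists_equiv_fin V
  obtain ⟨f, ⟨e2⟩⟩ := Finite.exists_equiv_fin W
  let e : V ⊕ W ≃ Fin (z + f) := (Equiv.sumCongr e1 e2).trans finSumFinEquiv
  have hn : n = z + f := by
    have := Fintype.card_congr (e'.symm.trans e)
    simpa using this
  subst hn
  have hsymm : ∀ v w, sumM μ ν v w = sumM μ ν w v := by
    rintro (v | v) (w | w)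
    · exact rμ.symm v w
    · rfl
    · rfl
    · exact rν.symm v w
  refine h1 p (p - 2) (V ⊕ W) (sumM μ ν) hsymm (z + f) e e' ?_
  -- the degrees
  have hodd : Odd (p - 2) := by
    rcases hp.eq_two_or_odd' with h | ⟨k, hk⟩
    · exact absurd h hp2
    · have := hp.two_le
      exact ⟨k - 1, by omega⟩
  have r1 := deg_nm rμ e1
  have r2 := deg_nm rν e2
  have c1 := reg_card _ _ r1
  have c2 := reg_card _ _ r2
  have hev : ∀ {c m : ℕ}, 2 * c = (p - 2) * m → Even m ∧ c = (p - 2) * (m / 2) := by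
    intro c m h
    have h4 : Even ((p - 2) * m) := ⟨c, by omega⟩
    rw [Nat.even_mul] at h4
    have h5 : Even m := h4.resolve_left (Nat.not_even_iff_odd.2 hodd)
    refine ⟨h5, ?_⟩
    obtain ⟨k, rfl⟩ := h5
    have h6 : (k + k) / 2 = k := by omega
    rw [h6]
    have h7 : 2 * c = 2 * ((p - 2) * k) := by rw [h]; ring
    omega
  obtain ⟨ez, cz⟩ := hev c1
  obtain ⟨ef, cf⟩ := hev c2
  set m1 := nm μ e1 with hm1
  set m2 := nm ν e2 with hm2
  set m := nm (sumM μ ν) e with hm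
  -- the Pfaffians
  have d1 : DD p (skew (cJ p z)) (mτ m1) (mη m1) ≠ 0 := by
    rw [h2 p z _ (mτ m1) (mη m1) _ (skew_antisymm _) (skew_self _) cz]
    exact mul_ne_zero (okμ z e1) (cJ_pf_ne p ez)
  have d2 : DD p (skew (cJ p f)) (mτ m2) (mη m2) ≠ 0 := by
    rw [h2 p f _ (mτ m2) (mη m2) _ (skew_antisymm _) (skew_self _) cf]
    exact mul_ne_zero (okν f e2) (cJ_pf_ne p ef)
  set A := (Matrix.fromBlocks (skew (cJ p z)) 0 0 (skew (cJ p f))).submatrix finSumFinEquiv.symm
    finSumFinEquiv.symm with hA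
  obtain ⟨hA1, hA2⟩ := blk_skew (skew (cJ p z)) (skew (cJ p f)) (skew_antisymm _) (skew_self _)
    (skew_antisymm _) (skew_self _)
  set τU : ME m1 ⊕ ME m2 → Fin (z + f) :=
    Sum.elim (fun e => Fin.castAdd f (mτ m1 e)) (fun e => Fin.natAdd z (mτ m2 e)) with hτU
  set ηU : ME m1 ⊕ ME m2 → Fin (z + f) :=
    Sum.elim (fun e => Fin.castAdd f (mη m1 e)) (fun e => Fin.natAdd z (mη m2 e)) with hηU
  have hDD : DD p A τU ηU ≠ 0 := by
    rw [h3 p z f (ME m1) (ME m2) (mτ m1) (mη m1) (mτ m2) (mη m2)]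
    exact mul_ne_zero d1 d2
  have hcardU : Fintype.card (ME m1 ⊕ ME m2) = (p - 2) * ((z + f) / 2) := by
    rw [Fintype.card_sum, cz, cf, ← mul_add]
    congr 1
    obtain ⟨k, rfl⟩ := ez
    obtain ⟨l, rfl⟩ := ef
    omega
  rw [h2 p (z + f) _ τU ηU A hA1 hA2 hcardU] at hDD
  have hccU : cc (ZMod p) (p - 2) τU ηU ≠ 0 := left_ne_zero_of_mul hDD
  -- the comparison
  have g1 : ∀ x : Ed z, m1 x = m (io z f (Sum.inl x)) := by
    intro x
    simp only [hm1, hm, nm, io, e]
    simp [sumM]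
  have g2 : ∀ x : Ed f, m2 x = m (io z f (Sum.inr x)) := by
    intro x
    simp only [hm2, hm, nm, io, e]
    simp [sumM]
  have g0 : ∀ b, b ∉ Set.range (io z f) → m b = 0 := by
    rintro ⟨⟨a, b⟩, hab⟩ hb
    have hab' : a < b := hab
    simp only [hm, nm, e]
    induction a using Fin.addCases with
    | left a =>
      induction b using Fin.addCases with
      | left b => exact absurd ⟨Sum.inl ⟨(a, b), hab⟩, rfl⟩ hb
      | right b => simp [sumM]
    | right a =>
      induction b using Fin.addCases with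
      | left b => simp [sumM]
      | right b =>
        refine absurd ⟨Sum.inr ⟨(a, b), ?_⟩, rfl⟩ hb
        rw [Fin.lt_def] at hab' ⊢
        simpa using hab'
  let ψ : ME m1 ⊕ ME m2 ≃ ME m :=
    (Equiv.sumCongr (Equiv.sigmaCongrRight fun x => finCongr (g1 x))
      (Equiv.sigmaCongrRight fun x => finCongr (g2 x))).trans
      ((Equiv.sumSigmaDistrib fun s => Fin (m (io z f s))).symm.trans
        (Equiv.ofBijective _ (sig_bij (io z f) (io_inj z f) m g0)))
  obtain ⟨ε, hε, hcc⟩ := hI (ZMod p) (p - 2) (z + f) (ME m1 ⊕ ME m2) (ME m) τU ηU (mτ m) (mη m) ψ 1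
    (by
      rintro (x | x)
      · exact Or.inl ⟨rfl, rfl⟩
      · exact Or.inl ⟨rfl, rfl⟩)
  rw [hcc]
  refine mul_ne_zero ?_ hccU
  rcases hε with rfl | rfl <;> simp

end Pool.Agent.Y812.ZF.Uni
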