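import Pool.Agent.Y819.ZF.Stm

/-!
# Zero forcing sets of cycles and of squares of cycles
-/

set_option autoImplicit false

namespace Pool.Agent.Y812.ZF

open Pool.Agent.Y819.ZF (Forced)

/-- The cycle. -/
def cyc (n : ℕ) [NeZero n] : SimpleGraph (ZMod n) := SimpleGraph.fromRel (fun a b => b - a = 1)

/-- The square of the cycle. -/
def cyc2 (n : ℕ) [NeZero n] : SimpleGraph (ZMod n) :=
  SimpleGraph.fromRel (fun a b => b - a = 1 ∨ b - a = 2)

lemma cast_ne {n a b : ℕ} (hab : a ≠ b) (ha : a < n) (hb : b < n) : (a : ZMod n) ≠ (b : ZMod n) := by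
  intro h
  rw [ZMod.natCast_eq_natCast_iff'] at h
  rw [Nat.mod_eq_of_lt ha, Nat.mod_eq_of_lt hb] at h
  exact hab h

lemma cyc_adj {n : ℕ} [NeZero n] (hn : 3 ≤ n) (a b : ZMod n) :
    (cyc n).Adj a b ↔ b = a + 1 ∨ b = a - 1 := by
  have h10 : (1 : ZMod n) ≠ 0 := by simpa using cast_ne (n := n) (a := 1) (b := 0) (by omega) (by omega) (by omega)
  unfold cyc
  rw [SimpleGraph.fromRel_adj]
  constructor
  · rintro ⟨_, h | h⟩
    · exact Or.inl (by rw [← h]; ring)
    · exact Or.inr (by rw [← h]; ring)
  · rintro (h | h)
    · refine ⟨fun h' => h10 ?_, Or.inl (by rw [h]; ring)⟩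
      rw [h] at h'
      linear_combination -h'
    · refine ⟨fun h' => h10 ?_, Or.inr (by rw [h]; ring)⟩
      rw [h] at h'
      linear_combination h'

lemma cyc2_adj {n : ℕ} [NeZero n] (hn : 5 ≤ n) (a b : ZMod n) :
    (cyc2 n).Adj a b ↔ b = a + 1 ∨ b = a - 1 ∨ b = a + 2 ∨ b = a - 2 := by
  have h10 : (1 : ZMod n) ≠ 0 := by simpa using cast_ne (n := n) (a := 1) (b := 0) (by omega) (by omega) (by omega)
  have h20 : (2 : ZMod n) ≠ 0 := by simpa using cast_ne (n := n) (a := 2) (b := 0) (by omega) (by omega) (by omega)
  unfold cyc2
  rw [SimpleGraph.fromRel_adj]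
  constructor
  · rintro ⟨_, (h | h) | (h | h)⟩
    · exact Or.inl (by rw [← h]; ring)
    · exact Or.inr (Or.inr (Or.inl (by rw [← h]; ring)))
    · exact Or.inr (Or.inl (by rw [← h]; ring))
    · exact Or.inr (Or.inr (Or.inr (by rw [← h]; ring)))
  · rintro (h | h | h | h)
    · refine ⟨fun h' => h10 ?_, Or.inl (Or.inl (by rw [h]; ring))⟩
      rw [h] at h'
      linear_combination -h'
    · refine ⟨fun h' => h10 ?_, Or.inr (Or.inl (by rw [h]; ring))⟩
      rw [h] at h'
      linear_combination h'
    · refine ⟨fun h' => h20 ?_, Or.inl (Or.inr (by rw [h]; ring))⟩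
      rw [h] at h'
      linear_combination -h'
    · refine ⟨fun h' => h20 ?_, Or.inr (Or.inr (by rw [h]; ring))⟩
      rw [h] at h'
      linear_combination h'

/-- The cycle is regular of degree two. -/
theorem cyc_deg (n : ℕ) [NeZero n] (hn : 3 ≤ n) (v : ZMod n) :
    ((cyc n).neighborSet v).ncard = 2 := by
  have h20 : (2 : ZMod n) ≠ 0 := by simpa using cast_ne (n := n) (a := 2) (b := 0) (by omega) (by omega) (by omega)
  have h : (cyc n).neighborSet v = {v + 1, v - 1} := by
    ext w
    rw [SimpleGraph.mem_neighborSet, cyc_adj hn]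
    simp
  rw [h, Set.ncard_pair]
  intro h'
  apply h20
  linear_combination h'

/-- Two consecutive vertices of a cycle are a zero forcing set. -/
theorem cyc_forced (n : ℕ) [NeZero n] (hn : 3 ≤ n) :
    ({0, 1} : Set (ZMod n)).ncard = 2 ∧ ∀ v, Forced (cyc n) {0, 1} v := by
  have h10 : (0 : ZMod n) ≠ 1 := by
    simpa using cast_ne (n := n) (a := 0) (b := 1) (by omega) (by omega) (by omega)
  refine ⟨Set.ncard_pair h10, ?_⟩
  have key : ∀ k : ℕ, Forced (cyc n) {0, 1} (k : ZMod n) := by
    intro k
    induction k using Nat.strong_induction_on with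
    | _ k ih =>
      rcases Nat.lt_or_ge k 2 with hk | hk
      · interval_cases k
        · exact Forced.mem _ (by simp)
        · exact Forced.mem _ (by simp)
      · obtain ⟨j, rfl⟩ : ∃ j, k = j + 2 := ⟨k - 2, by omega⟩
        refine Forced.force ((j + 1 : ℕ) : ZMod n) _ (ih (j + 1) (by omega)) ?_ ?_
        · rw [cyc_adj hn]
          left
          push_cast
          ring
        · intro w hw hne
          rw [cyc_adj hn] at hw
          rcases hw with hw | hw
          · exact absurd (by rw [hw]; push_cast; ring) hne
          · have : w = (j : ZMod n) := by rw [hw]; push_cast; ring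
            rw [this]
            exact ih j (by omega)
  intro v
  have := key v.val
  rwa [ZMod.natCast_zmod_val] at this

/-- The square of the cycle is regular of degree four. -/
theorem cyc2_deg (n : ℕ) [NeZero n] (hn : 5 ≤ n) (v : ZMod n) :
    ((cyc2 n).neighborSet v).ncard = 4 := by
  have h10 : (1 : ZMod n) ≠ 0 := by simpa using cast_ne (n := n) (a := 1) (b := 0) (by omega) (by omega) (by omega)
  have h20 : (2 : ZMod n) ≠ 0 := by simpa using cast_ne (n := n) (a := 2) (b := 0) (by omega) (by omega) (by omega)
  have h30 : (3 : ZMod n) ≠ 0 := by simpa using cast_ne (n := n) (a := 3) (b := 0) (by omega) (by omega) (by omega)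
  have h40 : (4 : ZMod n) ≠ 0 := by simpa using cast_ne (n := n) (a := 4) (b := 0) (by omega) (by omega) (by omega)
  classical
  have h : (cyc2 n).neighborSet v = (({v + 1, v - 1, v + 2, v - 2} : Finset (ZMod n)) : Set (ZMod n)) := by
    ext w
    rw [SimpleGraph.mem_neighborSet, cyc2_adj hn]
    simp
  rw [h, Set.ncard_coe_finset, Finset.card_insert_of_notMem, Finset.card_insert_of_notMem,
    Finset.card_insert_of_notMem, Finset.card_singleton]
  · rw [Finset.mem_singleton]
    intro h'
    apply h40
    linear_combination h'
  · rw [Finset.mem_insert, Finset.mem_singleton]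
    rintro (h' | h')
    · apply h30
      linear_combination -h'
    · apply h10
      linear_combination h'
  · rw [Finset.mem_insert, Finset.mem_insert, Finset.mem_singleton]
    rintro (h' | h' | h')
    · apply h20
      linear_combination h'
    · apply h10
      linear_combination -h'
    · apply h30
      linear_combination h'

/-- Four consecutive vertices of the square of a cycle are a zero forcing set. -/
theorem cyc2_forced (n : ℕ) [NeZero n] (hn : 5 ≤ n) :
    ({0, 1, 2, 3} : Set (ZMod n)).ncard = 4 ∧ ∀ v, Forced (cyc2 n) {0, 1, 2, 3} v := by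
  classical
  constructor
  · have h : ({0, 1, 2, 3} : Set (ZMod n)) =
        (((Finset.range 4).image fun k : ℕ => (k : ZMod n) : Finset (ZMod n)) : Set (ZMod n)) := by
      ext w
      simp only [Set.mem_insert_iff, Set.mem_singleton_iff, Finset.coe_image, Set.mem_image,
        Finset.coe_range, Set.mem_Iio]
      constructor
      · rintro (h | h | h | h)
        · exact ⟨0, by norm_num, by rw [h]; simp⟩
        · exact ⟨1, by norm_num, by rw [h]; simp⟩
        · exact ⟨2, by norm_num, by rw [h]; simp⟩
        · exact ⟨3, by norm_num, by rw [h]; simp⟩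
      · rintro ⟨k, hk, rfl⟩
        interval_cases k <;> simp
    rw [h, Set.ncard_coe_finset, Finset.card_image_of_injOn, Finset.card_range]
    intro a ha b hb hab
    simp only [Finset.coe_range, Set.mem_Iio] at ha hb
    by_contra hno
    exact cast_ne (n := n) hno (by omega) (by omega) hab
  · have key : ∀ k : ℕ, Forced (cyc2 n) {0, 1, 2, 3} (k : ZMod n) := by
      intro k
      induction k using Nat.strong_induction_on with
      | _ k ih =>
        rcases Nat.lt_or_ge k 4 with hk | hk
        · interval_cases k
          · exact Forced.mem _ (by simp)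
          · exact Forced.mem _ (by simp)
          · exact Forced.mem _ (by simp)
          · exact Forced.mem _ (by simp)
        · obtain ⟨j, rfl⟩ : ∃ j, k = j + 4 := ⟨k - 4, by omega⟩
          refine Forced.force ((j + 2 : ℕ) : ZMod n) _ (ih (j + 2) (by omega)) ?_ ?_
          · rw [cyc2_adj hn]
            right; right; left
            push_cast
            ring
          · intro w hw hne
            rw [cyc2_adj hn] at hw
            rcases hw with hw | hw | hw | hw
            · have : w = ((j + 3 : ℕ) : ZMod n) := by rw [hw]; push_cast; ring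
              rw [this]
              exact ih _ (by omega)
            · have : w = ((j + 1 : ℕ) : ZMod n) := by rw [hw]; push_cast; ring
              rw [this]
              exact ih _ (by omega)
            · exact absurd (by rw [hw]; push_cast; ring) hne
            · have : w = (j : ZMod n) := by rw [hw]; push_cast; ring
              rw [this]
              exact ih j (by omega)
    intro v
    have := key v.val
    rwa [ZMod.natCast_zmod_val] at this

end Pool.Agent.Y812.ZF
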